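import Pool.Agent.W2helper20.PK.Final1

/-!
# Peak sets for analytic Lipschitz classes need not be zero sets for Gevrey classes

For every `0 < α ≤ 1` we construct a closed set `E` of the unit circle which is a peak set for the
analytic Lipschitz class `A_α`, but on which no nonzero function of the Gevrey class `G_α` vanishes
together with all its derivatives. So `P_α ≠ Z(G_α)` for every `0 < α ≤ 1`, which disproves the
conjecture `P_α = Z(G_α)`.

For `α = 1` one point is enough (`G_1` contains no nonzero function that is flat at a point). For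
`0 < α < 1` the set `E` contains the image on the circle of the left endpoints of a Cantor
construction with interval lengths `s_k = (2^{-k} / (k + 1)) ^ {1 / (1 - α)}`, so that the
integral of `dist (ζ, E) ^ {- α}` over the circle diverges like the harmonic series. The peak
function is a limit of `1 / (1 - 2 i g_n)`, where `g_n` is the reciprocal of the Stieltjes transform
of the uniform probability measure on the `2^n` left endpoints of generation `n`, with each of its
poles (one in each gap of generation `k`) replaced by a small semicircle law of radius comparable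
with `s_k / (k + 1) ^ {1 / (1 + α)}`.
-/

set_option autoImplicit false

open Complex Set Filter Topology Metric

namespace Pool.Agent.Results.MP_129fce_an.PeakNotGevreyZero

/-- The class `A_α`: analytic in the open unit disc, continuous on the closed disc and
`α`-Hölder on the unit circle. -/
def InA (α : ℝ) (f : ℂ → ℂ) : Prop :=
  DifferentiableOn ℂ f (ball 0 1) ∧ ContinuousOn f (closedBall 0 1) ∧
    ∃ C : ℝ, ∀ z ∈ sphere (0 : ℂ) 1, ∀ w ∈ sphere (0 : ℂ) 1, ‖f z - f w‖ ≤ C * ‖z - w‖ ^ α

/-- `E` is a peak set for `A_α`: it is a closed subset of the unit circle and some `f ∈ A_α` is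
equal to `1` on `E` and has modulus less than `1` on the rest of the circle. -/
def IsPeakSet (α : ℝ) (E : Set ℂ) : Prop :=
  IsClosed E ∧ E ⊆ sphere 0 1 ∧
    ∃ f : ℂ → ℂ, InA α f ∧ (∀ z ∈ E, f z = 1) ∧ ∀ z ∈ sphere (0 : ℂ) 1 \ E, ‖f z‖ < 1

/-- The Gevrey class `G_α`: analytic in the open unit disc with
`|f^(n)| ≤ C^(n+1) (n!)^(1+1/α)` there for all `n`. -/
def InG (α : ℝ) (f : ℂ → ℂ) : Prop :=
  DifferentiableOn ℂ f (ball 0 1) ∧
    ∃ C : ℝ, ∀ n : ℕ, ∀ z ∈ ball (0 : ℂ) 1,
      ‖iteratedDeriv n f z‖ ≤ C ^ (n + 1) * (n.factorial : ℝ) ^ (1 + 1 / α)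

/-- `E` is a zero set for `G_α`: a subset of the unit circle on which all derivatives of some
`f ∈ G_α`, not identically zero in the disc, vanish. (The value of `f^(n)` at a boundary point `ζ`
is its limit at `ζ` from inside the disc.) -/
def IsGevreyZeroSet (α : ℝ) (E : Set ℂ) : Prop :=
  E ⊆ sphere 0 1 ∧ ∃ f : ℂ → ℂ, InG α f ∧ (∃ z ∈ ball (0 : ℂ) 1, f z ≠ 0) ∧
    ∀ n : ℕ, ∀ ζ ∈ E, Tendsto (iteratedDeriv n f) (𝓝[ball 0 1] ζ) (𝓝 0)

/-- For every `0 < α ≤ 1` there is a nonempty closed proper subset `E` of the unit circle that is a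
peak set for `A_α` but not a zero set for `G_α`. -/
theorem result (α : ℝ) (hα0 : 0 < α) (hα1 : α ≤ 1) :
    ∃ E : Set ℂ, E.Nonempty ∧ E ≠ sphere 0 1 ∧ IsPeakSet α E ∧ ¬ IsGevreyZeroSet α E := by
  rcases hα1.lt_or_eq with h | h
  · obtain ⟨f, hf1, hf2, ⟨C, hC⟩, hf4, hf5, hf6⟩ :=
      Pool.Agent.W2helper20.PK.exists_limit hα0 h
    set E : Set ℂ := {z | z ∈ sphere (0 : ℂ) 1 ∧ f z = 1} with hE
    have hsub : E ⊆ sphere (0 : ℂ) 1 := fun z hz => hz.1
    have hpt : ∀ n i, i < 2 ^ n →
        Pool.Agent.W2helper20.PK.zt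
          (Pool.Agent.W2helper20.PK.pp (Pool.Agent.W2helper20.PK.ss α) n i) ∈ E := by
      intro n i hi
      refine ⟨?_, hf6 n i hi⟩
      rw [mem_sphere_zero_iff_norm]
      exact Pool.Agent.W2helper20.PK.zt_norm _
    refine ⟨E, ⟨_, hpt 0 0 (by norm_num)⟩, ?_, ⟨?_, hsub, f, ⟨hf2, hf1, C, ?_⟩, ?_, ?_⟩, ?_⟩
    · intro h1
      have h2 : (-1 : ℂ) ∈ E := by rw [h1]; simp
      have h3 := h2.2
      rw [hf5] at h3
      exact zero_ne_one h3
    · have h1 : ContinuousOn f (sphere (0 : ℂ) 1) := hf1.mono sphere_subset_closedBall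
      have h2 := h1.preimage_isClosed_of_isClosed isClosed_sphere (isClosed_singleton (x := (1 : ℂ)))
      exact h2
    · intro z hz w hw
      rw [mem_sphere_zero_iff_norm] at hz hw
      exact hC z w hz hw
    · exact fun z hz => hz.2
    · intro z hz
      have hz1 : ‖z‖ = 1 := mem_sphere_zero_iff_norm.1 hz.1
      have hz2 : f z ≠ 1 := fun h1 => hz.2 ⟨hz.1, h1⟩
      have h3 := hf4 z hz1.le
      have h4 := Complex.re_le_norm (f z)
      have h5 := norm_nonneg (f z)
      by_contra hcon
      push Not at hcon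
      have h6 : ‖f z‖ = 1 := by nlinarith
      have h7 : (f z).re = 1 := by
        rw [h6] at h3 h4
        linarith
      apply hz2
      have h8 : ‖f z‖ ^ 2 = (f z).re ^ 2 + (f z).im ^ 2 := by
        rw [← Complex.normSq_eq_norm_sq, Complex.normSq_apply]; ring
      rw [h6, h7] at h8
      have h9 : (f z).im = 0 := by nlinarith
      apply Complex.ext <;> simp [h7, h9]
    · rintro ⟨-, F, ⟨hF1, C', hF2⟩, ⟨z, hz1, hz2⟩, hF3⟩
      exact Pool.Agent.W2helper20.PK.cantor_not_zero hα0 h
        (fun ζ hζ => mem_sphere_zero_iff_norm.1 (hsub hζ)) hpt hF1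
        (fun n z hz => hF2 n z (mem_ball_zero_iff.2 hz)) ⟨z, mem_ball_zero_iff.1 hz1, hz2⟩ hF3
  · subst h
    refine ⟨{1}, singleton_nonempty _, ?_, ⟨isClosed_singleton, ?_, fun z => (1 + z) / 2,
      ⟨?_, ?_, 1, ?_⟩, ?_, ?_⟩, ?_⟩
    · intro h1
      have h2 : (-1 : ℂ) ∈ ({1} : Set ℂ) := by rw [h1]; simp
      have h3 : (-1 : ℂ) = 1 := h2
      norm_num at h3
    · intro z hz
      rw [mem_singleton_iff.1 hz]
      simp
    · exact (by fun_prop : Differentiable ℂ fun z : ℂ => (1 + z) / 2).differentiableOn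
    · exact (by fun_prop : Continuous fun z : ℂ => (1 + z) / 2).continuousOn
    · intro z _ w _
      have h1 : (1 + z) / 2 - (1 + w) / 2 = (z - w) / 2 := by ring
      have h2 : ‖(2 : ℂ)‖ = 2 := by simp
      rw [h1, norm_div, h2, Real.rpow_one]
      have := norm_nonneg (z - w)
      linarith
    · intro z hz
      rw [mem_singleton_iff.1 hz]
      norm_num
    · intro z hz
      have hz1 : ‖z‖ = 1 := mem_sphere_zero_iff_norm.1 hz.1
      have hz2 : z ≠ 1 := fun h1 => hz.2 (mem_singleton_iff.2 h1)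
      have h3 : ‖z‖ ^ 2 = z.re ^ 2 + z.im ^ 2 := by
        rw [← Complex.normSq_eq_norm_sq, Complex.normSq_apply]; ring
      have h4 : ‖(1 + z) / 2‖ ^ 2 = ((1 + z.re) ^ 2 + z.im ^ 2) / 4 := by
        rw [← Complex.normSq_eq_norm_sq, Complex.normSq_apply]
        simp
        ring
      rw [hz1] at h3
      have h5 : z.re < 1 := by
        have h6 : z.re ≤ 1 := by nlinarith [sq_nonneg z.im]
        rcases h6.lt_or_eq with h7 | h7
        · exact h7
        · exfalso
          rw [h7] at h3
          have h8 : z.im = 0 := by nlinarith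
          exact hz2 (by apply Complex.ext <;> simp [h7, h8])
      have h6 : ‖(1 + z) / 2‖ ^ 2 < 1 := by
        rw [h4]
        nlinarith
      have h7 := norm_nonneg ((1 + z) / 2)
      show ‖(1 + z) / 2‖ < 1
      nlinarith
    · rintro ⟨-, F, ⟨hF1, C', hF2⟩, ⟨z, hz1, hz2⟩, hF3⟩
      exact Pool.Agent.W2helper20.PK.point_not_zero (E := {1})
        (fun ζ hζ => by rw [mem_singleton_iff.1 hζ]; simp) (mem_singleton _) hF1
        (fun n z hz => hF2 n z (mem_ball_zero_iff.2 hz)) ⟨z, mem_ball_zero_iff.1 hz1, hz2⟩ hF3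

end Pool.Agent.Results.MP_129fce_an.PeakNotGevreyZero
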